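import Mathlib
import Pool.Agent.MP_f8284b_co.N72.Uni

set_option autoImplicit false

namespace Pool.Agent.Results.MP_f8284b_co.EditRigidity

open Filter Pool.Agent.MP_f8284b_co

open Classical in
/-- Anti-concentration of the Tutte polynomial under edits, with rate `n ^ (-c √n)`: for every
fixed non-empty set `D` of pairs, of any size, switching the pairs of `D` changes the Tutte
polynomial of all graphs but a fraction `exp (-c √n log n)`. -/
theorem result : ∃ c : ℝ, 0 < c ∧ ∀ᶠ n : ℕ in atTop,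
    ∀ D : SimpleGraph (Fin n), D ≠ ⊥ →
      (Nat.card {G : SimpleGraph (Fin n) //
        tutte (Subtype.val : (symmDiff G D).edgeSet → Sym2 (Fin n)) =
          tutte (Subtype.val : G.edgeSet → Sym2 (Fin n))} : ℝ) /
        (Nat.card (SimpleGraph (Fin n)) : ℝ) ≤ Real.exp (-(c * √n * Real.log n)) := by
  refine ⟨1 / 2000, by norm_num, eventually_atTop.2 ⟨10 ^ 56, fun n hn => ?_⟩⟩
  obtain ⟨y, hy, h8, h4, hl⟩ := N72.exists_root hn
  have h200 : 200 ≤ n := le_trans (by norm_num) hn
  rw [h4, hl]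
  refine fun D hD => (N72.single hy h8 h200 D hD).trans (le_trans ?_
    (N72.num3 hy h8 (r := 0) (by rw [Nat.cast_zero]; positivity)).2)
  linarith [Real.exp_pos (-(24 / 1000 * (y ^ 4 * Real.log y)))]

open Classical in
/-- Corollary (union bound over the small `D`; not the hand-in): no graph with the Tutte polynomial
of `G` has an isomorphic copy other than `G` within `c √n` edge edits of `G`. -/
theorem nearMates : ∃ c : ℝ, 0 < c ∧ ∀ᶠ n : ℕ in atTop,
    (Nat.card {G : SimpleGraph (Fin n) // ∃ H H' : SimpleGraph (Fin n),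
        tutte (Subtype.val : H.edgeSet → Sym2 (Fin n)) =
          tutte (Subtype.val : G.edgeSet → Sym2 (Fin n)) ∧ Nonempty (H ≃g H') ∧
        ((symmDiff G.edgeSet H'.edgeSet).ncard : ℝ) ≤ c * √n ∧ H' ≠ G} : ℝ) /
        (Nat.card (SimpleGraph (Fin n)) : ℝ) ≤ Real.exp (-(c * √n * Real.log n)) := by
  refine ⟨1 / 2000, by norm_num, eventually_atTop.2 ⟨10 ^ 56, fun n hn => ?_⟩⟩
  obtain ⟨y, hy, h8, h4, hl⟩ := N72.exists_root hn
  rw [h4, hl]
  exact N72.near hy h8 (le_trans (by norm_num) hn)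

open Classical in
/-- Corollary (average over `D`; not the hand-in): two independent graphs have different Tutte
polynomials. -/
theorem collisions : ∃ c : ℝ, 0 < c ∧ ∀ᶠ n : ℕ in atTop,
    (Nat.card {p : SimpleGraph (Fin n) × SimpleGraph (Fin n) //
        tutte (Subtype.val : p.1.edgeSet → Sym2 (Fin n)) =
          tutte (Subtype.val : p.2.edgeSet → Sym2 (Fin n))} : ℝ) /
        (Nat.card (SimpleGraph (Fin n)) : ℝ) ^ 2 ≤ Real.exp (-(c * √n * Real.log n)) := by
  refine ⟨1 / 2000, by norm_num, eventually_atTop.2 ⟨10 ^ 56, fun n hn => ?_⟩⟩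
  obtain ⟨y, hy, h8, h4, hl⟩ := N72.exists_root hn
  rw [h4, hl]
  exact N72.pairs hy h8 (le_trans (by norm_num) hn)

end Pool.Agent.Results.MP_f8284b_co.EditRigidity
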