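import Mathlib
import Pool.Agent.MP_f8284b_co.h58.Final

set_option autoImplicit false

namespace Pool.Agent.Results.MP_f8284b_co.OptimalExponent

open Pool.Agent.MP_f8284b_co

/-- For all large `N` there are at least `2 ^ (N.choose 2 - C * N ^ (9 / 5))` pairwise
non-isomorphic Tutte unique simple graphs on `N` vertices. -/
theorem result : ∃ C : ℝ, ∀ᶠ N : ℕ in Filter.atTop, ∃ S : Finset (SimpleGraph (Fin N)),
    (2 : ℝ) ^ ((N.choose 2 : ℝ) - C * (N : ℝ) ^ (9 / 5 : ℝ)) ≤ S.card ∧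
      (∀ G ∈ S, TutteUnique G) ∧ ∀ G ∈ S, ∀ H ∈ S, Nonempty (G ≃g H) → G = H :=
  H58.main

end Pool.Agent.Results.MP_f8284b_co.OptimalExponent
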