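import Mathlib
import Pool.Agent.MP_f8284b_co.U85.All

set_option autoImplicit false

namespace Pool.Agent.Results.MP_f8284b_co.PottsFields

open Filter Topology Pool.Agent.MP_f8284b_co.U85

/-- For some fixed number `t` of external fields, almost all graphs are determined by their Potts
partition function with `t` fields. The case `t = 0` is the conjecture on the Tutte polynomial. -/
theorem result : ∃ t : ℕ, Tendsto (fun n : ℕ =>
    (Nat.card {G : SimpleGraph (Fin n) // ∀ H : SimpleGraph (Fin n),
        (∀ (q v : ℤ) (z : Fin t → ℤ), potts G q v z = potts H q v z) → Nonempty (G ≃g H)} : ℝ) /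
      (Nat.card (SimpleGraph (Fin n)) : ℝ)) atTop (𝓝 1) :=
  main_potts

end Pool.Agent.Results.MP_f8284b_co.PottsFields
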